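import Pool.Agent.Helper59.AN.Goals

/-! CCC packet: the algebra has the countable chain condition. -/

noncomputable section

namespace AN.PkCCC

open Pool.Agent.Helper97.Ku NU AN Classical

/-- Coordinates of a vertex. -/
def co {I X : Type} : Vx I X → Finset (I ⊕ (I × X))
  | .a k _ _ => {Sum.inl k}
  | .g k x _ => {Sum.inl k, Sum.inr (k, x)}

/-- Coordinates of a finite set of vertices. -/
def uu {I X : Type} (p : Finset (Vx I X)) : Finset (I ⊕ (I × X)) := p.biUnion co

theorem mem_uu {I X : Type} {p : Finset (Vx I X)} {k : I ⊕ (I × X)} {v : Vx I X} (hv : v ∈ p)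
    (hk : k ∈ co v) : k ∈ uu p := Finset.mem_biUnion.2 ⟨v, hv, hk⟩

/-- The values at the coordinates. -/
def cc {I X : Type} (p : Finset (Vx I X)) : I ⊕ (I × X) → ℕ
  | .inl k => Encodable.encode
      (p.preimage (fun t : List ℕ × Finset ℕ => Vx.a k t.1 t.2) (by
        rintro ⟨s, t⟩ - ⟨s', t'⟩ - h
        simp only [Vx.a.injEq, true_and] at h
        exact Prod.ext h.1 h.2) : Finset (List ℕ × Finset ℕ))
  | .inr y => Encodable.encode
      (p.preimage (fun s : List ℕ => Vx.g y.1 y.2 s) (by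
        intro s _ s' _ h
        simpa using h) : Finset (List ℕ))

variable {X : Type} [LinearOrder X]

theorem key {R : Rnk X} {I : Type} (p q : Cd R I)
    (h : ∀ k, k ∈ uu p.1 → k ∈ uu q.1 → cc p.1 k = cc q.1 k) :
    ∀ v ∈ p.1, ∀ w ∈ q.1, ¬ Cf R v w := by
  intro v hv w hw hc
  have hvU : ∀ k ∈ co v, k ∈ uu p.1 := fun k hk => mem_uu hv hk
  have hwU : ∀ k ∈ co w, k ∈ uu q.1 := fun k hk => mem_uu hw hk
  cases v with
  | a i s σ =>
    cases w with
    | a i' s' σ' => exact hc
    | g i' x s' =>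
      obtain ⟨rfl, rfl, h1⟩ := hc
      have h2 := h (Sum.inl i) (hvU _ (by simp [co])) (hwU _ (by simp [co]))
      have h3 := Encodable.encode_injective h2
      have h4 := Finset.ext_iff.1 h3 (s, σ)
      simp only [Finset.mem_preimage] at h4
      exact q.2 _ (h4.1 hv) _ hw ⟨rfl, rfl, h1⟩
  | g i x s =>
    cases w with
    | a i' s' σ =>
      obtain ⟨rfl, rfl, h1⟩ := hc
      have h2 := h (Sum.inl i) (hvU _ (by simp [co])) (hwU _ (by simp [co]))
      have h3 := Encodable.encode_injective h2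
      have h4 := Finset.ext_iff.1 h3 (s, σ)
      simp only [Finset.mem_preimage] at h4
      exact p.2 _ hv _ (h4.2 hw) ⟨rfl, rfl, h1⟩
    | g i' x' s' =>
      obtain ⟨rfl, rfl, h1⟩ := hc
      have h2 := h (Sum.inr (i, x)) (hvU _ (by simp [co])) (hwU _ (by simp [co]))
      have h3 := Encodable.encode_injective h2
      have h4 := Finset.ext_iff.1 h3 s'
      simp only [Finset.mem_preimage] at h4
      exact p.2 _ hv _ (h4.2 hw) ⟨rfl, rfl, h1⟩

/-- CCC. -/
theorem ccc : G_FNC → G_CCC := by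
  intro hF X _ R I ι b hb hd
  have hex : ∀ i, ∃ p : Cd R I, p ∈ b i := by
    intro i
    by_contra hne
    push Not at hne
    apply hb i
    apply le_antisymm _ bot_le
    rw [RO.le_def]
    intro p hp
    exact absurd hp (hne p)
  choose p hp using hex
  refine hF (I ⊕ (I × X)) ι (fun i => uu (p i).1) (fun i => cc (p i).1) ?_
  intro i j hij
  by_contra hne
  push Not at hne
  have h1 : ∀ k, k ∈ uu (p i).1 → k ∈ uu (p j).1 → cc (p i).1 k = cc (p j).1 k := hne
  have h2 : ∀ k, k ∈ uu (p j).1 → k ∈ uu (p i).1 → cc (p j).1 k = cc (p i).1 k :=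
    fun k a b => (hne k b a).symm
  let r : Cd R I := ⟨(p i).1 ∪ (p j).1, by
    intro v hv w hw
    rcases Finset.mem_union.1 hv with hv | hv <;> rcases Finset.mem_union.1 hw with hw | hw
    · exact (p i).2 v hv w hw
    · exact key (p i) (p j) h1 v hv w hw
    · exact key (p j) (p i) h2 v hv w hw
    · exact (p j).2 v hv w hw⟩
  have hr : r ∈ b i ⊓ b j := RO.mem_inf.2
    ⟨RO.lower (Cd.le_def.2 Finset.subset_union_left) (hp i),
      RO.lower (Cd.le_def.2 Finset.subset_union_right) (hp j)⟩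
  rw [hd i j hij] at hr
  exact RO.not_mem_bot _ hr

end AN.PkCCC
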